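import Pool.Agent.MP_66cee2_co.H12.Shift
import Pool.Agent.MP_66cee2_co.H1U.Kit

/-
A map that preserves unit distances and is not an isometry, with a polynomial loss.
-/

namespace Pool.Agent.MP_66cee2_co.H24U

open MeasureTheory Metric Finset Pool.Agent.MP_66cee2_co.H1U
open scoped RealInnerProductSpace

variable {d : ℕ}

theorem piece (a w : EuclideanSpace ℝ (Fin d)) (ha : ‖a‖ < 1 / 2)
    (h : 27 / 16 < ‖w - (3 / 2 : ℝ) • a‖ ^ 2) : 2 * ⟪w, a⟫ < ‖w‖ ^ 2 - ‖w‖ := by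
  rw [norm_sub_sq_real, real_inner_smul_right, norm_smul, Real.norm_eq_abs,
    abs_of_pos (by norm_num : (0 : ℝ) < 3 / 2)] at h
  nlinarith [sq_nonneg (‖w‖ - 3 / 2), norm_nonneg a]

theorem sep {x y c c' : EuclideanSpace ℝ (Fin d)} (hx : ‖x - c‖ < 1 / 2) (hy : ‖y - c'‖ < 1 / 2)
    (h1 : 27 / 16 < ‖c' - c - (3 / 2 : ℝ) • (x - c)‖ ^ 2)
    (h2 : 27 / 16 < ‖c - c' - (3 / 2 : ℝ) • (y - c')‖ ^ 2) : ‖x - y‖ ≠ 1 := by
  intro h
  have a1 := piece _ _ hx h1
  have a2 := piece _ _ hy h2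
  rw [← neg_sub c' c, inner_neg_left, norm_neg] at a2
  have a3 : ⟪c' - c, y - x⟫ ≤ ‖c' - c‖ * ‖y - x‖ := real_inner_le_norm _ _
  rw [norm_sub_rev y x, h, show y - x = (c' - c) + (y - c') - (x - c) by abel, inner_sub_right,
    inner_add_right, real_inner_self_eq_norm_sq] at a3
  linarith

theorem rho_sq : (3 * √3 / 4 : ℝ) ^ 2 = 27 / 16 := by
  have := Real.sq_sqrt (by norm_num : (0 : ℝ) ≤ 3)
  nlinarith

theorem rho_ge : (129 / 100 : ℝ) ≤ 3 * √3 / 4 :=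
  abs_le_of_sq_le_sq' (by rw [rho_sq]; norm_num) (by positivity) |>.2

theorem ratio (hd : 1 ≤ d) : (3 * √3 / 4 + 3 / (20 * d) : ℝ) ^ d ≤
    2 * (3 * √3 / 2) ^ d * (1 / 2 - 3 / (20 * d)) ^ d := by
  have hd' : (1 : ℝ) ≤ d := by exact_mod_cast hd
  have hρ := rho_ge
  set t : ℝ := 1 / d with ht
  have t0 : 0 < t := by positivity
  have t1 : t ≤ 1 := (div_le_one (by positivity)).2 hd'
  have e : (3 / (20 * d) : ℝ) = 3 / 20 * t := by rw [ht]; field_simp
  have h1 : (3 * √3 / 4 + 3 / 20 * t : ℝ) ≤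
      (1 + 3 / 5 * t) * ((3 * √3 / 2) * (1 / 2 - 3 / 20 * t)) := by
    nlinarith [mul_nonneg t0.le (sub_nonneg.2 t1), mul_nonneg t0.le (sub_nonneg.2 hρ),
      mul_nonneg (mul_nonneg t0.le (sub_nonneg.2 t1)) (sub_nonneg.2 hρ)]
  have h2 : (1 + 3 / 5 * t) ^ d ≤ 2 := by
    calc (1 + 3 / 5 * t) ^ d ≤ Real.exp (3 / 5 * t) ^ d :=
          pow_le_pow_left₀ (by positivity) (by linarith [Real.add_one_le_exp (3 / 5 * t)]) d
      _ = Real.exp (3 / 5) := by rw [← Real.exp_nat_mul, ht]; congr 1; field_simp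
      _ ≤ Real.exp (Real.log 2) := Real.exp_le_exp.2 (by linarith [Real.log_two_gt_d9])
      _ = 2 := Real.exp_log (by norm_num)
  rw [e]
  refine (pow_le_pow_left₀ (by positivity) h1 d).trans ?_
  rw [mul_pow, mul_pow, mul_assoc]
  refine mul_le_mul_of_nonneg_right h2 (mul_nonneg (by positivity) (pow_nonneg ?_ _))
  linarith

theorem prob (hd : 1 ≤ d) {δ : ℝ} (hδ : 0 < δ) (he : δ * d = 1 / (20 * d))
    (T : Finset (Fin d → ℤ)) : ∃ q : ℝ, 0 ≤ q ∧ q ≤ 1 ∧ ∀ z : EuclideanSpace ℝ (Fin d),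
    (∀ c, ‖pt δ c - z‖ ≤ 1 → c ∈ T) → ∀ (P : (T → Bool) → Prop) [DecidablePred P],
    (∀ o (c : T), o c = true → ‖pt δ c.1 - z‖ ≤ 1 / 2 - 2 * (δ * d) →
      (∀ b : T, b ≠ c → ‖pt δ b.1 - (pt δ c.1 + (3 / 2 : ℝ) • (z - pt δ c.1))‖ ≤
        3 * √3 / 4 + 2 * (δ * d) → o b = false) → P o) →
    1 / (8 * (3 * √3 / 2) ^ d) ≤ ∑ o, if P o then wt q o else 0 := by
  classical
  have hd' : (1 : ℝ) ≤ d := by exact_mod_cast hd
  have hρ := rho_ge
  have e0 : 0 < δ * d := by positivity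
  have e1 : δ * d ≤ 1 / 20 := by
    rw [he]; exact one_div_le_one_div_of_le (by norm_num) (by linarith)
  have e3 : 3 * (δ * d) = 3 / (20 * d) := by rw [he]; ring
  set v : ℝ := volume.real {x : EuclideanSpace ℝ (Fin d) | ix δ x = 0} with hv
  set b₁ : ℝ := volume.real (ball (0 : EuclideanSpace ℝ (Fin d)) 1) with hb₁
  have hb0 : 0 < b₁ := ENNReal.toReal_pos (measure_ball_pos _ _ one_pos).ne' measure_ball_lt_top.ne
  have vol : ∀ (z : EuclideanSpace ℝ (Fin d)) {r : ℝ}, 0 ≤ r →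
      volume.real (closedBall z r) = r ^ d * b₁ := fun z r hr => by
    rw [Measure.addHaar_real_closedBall _ _ hr, finrank_euclideanSpace, Fintype.card_fin]
  set W : ℝ := (3 * √3 / 4 + 3 * (δ * d)) ^ d * b₁ with hW
  have hW0 : 0 < W := by positivity
  have cnt : ∀ (S : Finset (Fin d → ℤ)) (z : EuclideanSpace ℝ (Fin d)),
      (∀ c ∈ S, ‖pt δ c - z‖ ≤ 3 * √3 / 4 + 2 * (δ * d)) → S.card * v ≤ W := fun S z h => by
    have := count_le hδ S h
    rwa [vol _ (by positivity), show 3 * √3 / 4 + 2 * (δ * d) + δ * d =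
      3 * √3 / 4 + 3 * (δ * d) by ring] at this
  have v0 : 0 ≤ v := measureReal_nonneg
  have vW : v ≤ W := by
    have := cnt {0} (pt δ 0) (by simp; positivity)
    simpa using this
  have q0 : 0 ≤ v / (2 * W) := by positivity
  have q1 : v / (2 * W) ≤ 1 := (div_le_one (by positivity)).2 (by linarith)
  refine ⟨v / (2 * W), q0, q1, fun z hT P _ hP => ?_⟩
  set q := v / (2 * W) with hq
  set S₁ : Finset T := univ.filter fun c => ‖pt δ c.1 - z‖ ≤ 1 / 2 - 2 * (δ * d) with hS₁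
  set B : T → Finset T := fun c => univ.filter fun b => b ≠ c ∧
    ‖pt δ b.1 - (pt δ c.1 + (3 / 2 : ℝ) • (z - pt δ c.1))‖ ≤ 3 * √3 / 4 + 2 * (δ * d) with hB
  have a1 : ∀ o : T → Bool, ∑ c ∈ S₁, (if o c = true ∧ ∀ b ∈ B c, o b = false then wt q o else 0) ≤
      if P o then wt q o else 0 := by
    intro o
    by_cases h : ∃ c ∈ S₁, o c = true ∧ ∀ b ∈ B c, o b = false
    · obtain ⟨c, hc, h1, h2⟩ := h
      have hc' := (mem_filter.1 hc).2
      rw [if_pos (hP o c h1 hc' fun b hb hn => h2 b (mem_filter.2 ⟨mem_univ _, hb, hn⟩)),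
        sum_eq_single_of_mem c hc, if_pos ⟨h1, h2⟩]
      intro b hb hne
      refine if_neg fun h3 => ?_
      have hb' := (mem_filter.1 hb).2
      have : o b = false := by
        refine h2 b (mem_filter.2 ⟨mem_univ _, hne, ?_⟩)
        rw [show pt δ b.1 - (pt δ c.1 + (3 / 2 : ℝ) • (z - pt δ c.1)) =
          (pt δ b.1 - z) + (1 / 2 : ℝ) • (pt δ c.1 - z) by module]
        refine (norm_add_le _ _).trans ?_
        rw [norm_smul, Real.norm_eq_abs, abs_of_pos (by norm_num : (0 : ℝ) < 1 / 2)]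
        linarith
      simp [this] at h3
    · rw [sum_eq_zero fun c hc => if_neg fun h3 => h ⟨c, hc, h3⟩]
      split_ifs
      · exact wt_nonneg q0 q1 o
      · exact le_rfl
  refine le_trans ?_ (sum_le_sum fun o _ => a1 o)
  rw [sum_comm]
  have a2 : ∀ c ∈ S₁, q / 2 ≤
      ∑ o : T → Bool, (if o c = true ∧ ∀ b ∈ B c, o b = false then wt q o else 0) := by
    intro c _
    rw [bern q c (B c) (by simp [hB])]
    have h1 := cnt ((B c).map (Function.Embedding.subtype _))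
      (pt δ c.1 + (3 / 2 : ℝ) • (z - pt δ c.1)) (fun b hb => by
        obtain ⟨b', hb', rfl⟩ := mem_map.1 hb
        exact (mem_filter.1 hb').2.2)
    rw [card_map] at h1
    have h2 := one_add_mul_le_pow (a := -q) (by linarith) (B c).card
    have h3 : (B c).card * q ≤ 1 / 2 := by
      rw [hq, ← mul_div_assoc, div_le_div_iff₀ (by positivity) (by norm_num)]; linarith
    rw [← sub_eq_add_neg] at h2
    nlinarith
  refine le_trans ?_ (card_nsmul_le_sum S₁ _ _ a2)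
  have a3 := le_count hδ (S₁.map (Function.Embedding.subtype _)) (z := z)
    (R := 1 / 2 - 3 * (δ * d)) fun c hc =>
      mem_map.2 ⟨⟨c, hT c (by linarith)⟩, mem_filter.2 ⟨mem_univ _, by linarith⟩, rfl⟩
  rw [card_map, vol _ (by linarith), ← hv] at a3
  have a4 := mul_le_mul_of_nonneg_right (ratio hd) hb0.le
  rw [← e3, ← hW] at a4
  have a5 : (0 : ℝ) < (3 * √3 / 2) ^ d := by positivity
  rw [nsmul_eq_mul, hq, show (S₁.card : ℝ) * (v / (2 * W) / 2) = S₁.card * v / (4 * W) by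
    field_simp; ring, div_le_div_iff₀ (by positivity) (by positivity)]
  nlinarith [mul_le_mul_of_nonneg_left a3 a5.le]

theorem net_lt (hd : 1 ≤ d) : ((40 * d ^ 3 : ℕ) : ℝ) < Real.exp (4 * d) := by
  have hd' : (1 : ℝ) ≤ d := by exact_mod_cast hd
  have h1 : (d : ℝ) ≤ Real.exp (d - 1) := by linarith [Real.add_one_le_exp ((d : ℝ) - 1)]
  have h2 : (d : ℝ) ^ 3 ≤ Real.exp (3 * (d - 1)) := by
    have := pow_le_pow_left₀ (by positivity) h1 3
    rwa [← Real.exp_nat_mul] at this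
  have h3 : (40 : ℝ) < Real.exp 4 := by
    have := pow_lt_pow_left₀ Real.exp_one_gt_d9 (by norm_num) (n := 4) (by norm_num)
    rw [← Real.exp_nat_mul] at this
    norm_num at this ⊢
    linarith
  push_cast
  calc (40 : ℝ) * d ^ 3 < Real.exp 4 * Real.exp (3 * (d - 1)) :=
        mul_lt_mul h3 h2 (by positivity) (Real.exp_pos _).le
    _ ≤ Real.exp (4 * d) := by rw [← Real.exp_add]; exact Real.exp_le_exp.2 (by linarith)

theorem upper (d n : ℕ) (hd : 1 ≤ d) (hn : 66 * (d : ℝ) ^ 3 * (3 * √3 / 2) ^ d ≤ n) :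
    ∃ f : EuclideanSpace ℝ (Fin d) → EuclideanSpace ℝ (Fin n),
      (∀ x y, ‖x - y‖ = 1 → ‖f x - f y‖ = 1) ∧ ∃ x y, ‖f x - f y‖ ≠ ‖x - y‖ := by
  classical
  have hd' : (1 : ℝ) ≤ d := by exact_mod_cast hd
  have hρ := rho_ge
  set δ : ℝ := 1 / (20 * d ^ 2) with hδd
  have hδ : 0 < δ := by positivity
  have he : δ * d = 1 / (20 * d) := by rw [hδd]; field_simp
  have e0 : 0 < δ * d := by positivity
  set z : (Fin d → Fin (40 * d ^ 3)) → EuclideanSpace ℝ (Fin d) :=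
    fun g => pt δ fun i => (g i : ℕ) with hz
  have hfin : (⋃ g, {c : Fin d → ℤ | ‖pt δ c - z g‖ ≤ 1}).Finite :=
    Set.finite_iUnion fun g => fin_near hδ _ _
  obtain ⟨q, q0, q1, hq⟩ := prob hd hδ he hfin.toFinset
  set K : ℝ := (3 * √3 / 2) ^ d with hK
  have K1 : 1 ≤ K := one_le_pow₀ (by linarith)
  set N : ℕ := ⌈32 * (d : ℝ) ^ 2 * K⌉₊ with hN
  have N1 : 32 * (d : ℝ) ^ 2 * K ≤ N := Nat.le_ceil _
  have N2 : (N : ℝ) < 32 * (d : ℝ) ^ 2 * K + 1 := Nat.ceil_lt_add_one (by positivity)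
  have d2 : 1 ≤ (d : ℝ) ^ 2 * K := one_le_mul_of_one_le_of_one_le (one_le_pow₀ hd') K1
  set P : (Fin d → Fin (40 * d ^ 3)) → (hfin.toFinset → Bool) → Prop := fun g o =>
    ∃ c, o c = true ∧ ‖pt δ c.1 - z g‖ ≤ 1 / 2 - 2 * (δ * d) ∧
      ∀ b, b ≠ c → ‖pt δ b.1 - (pt δ c.1 + (3 / 2 : ℝ) • (z g - pt δ c.1))‖ ≤
        3 * √3 / 4 + 2 * (δ * d) → o b = false with hP
  have p1 : 1 / (8 * K) ≤ 1 := (div_le_one (by positivity)).2 (by linarith)
  obtain ⟨f, U, hU, hf⟩ := greedy (wt q) (wt_nonneg q0 q1) (wt_sum q)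
    (fun o => univ.filter fun g => P g o) p1 (fun g => by
      simp only [mem_filter, mem_univ, true_and]
      exact hq (z g) (fun c hc => hfin.mem_toFinset.2 (Set.mem_iUnion.2 ⟨g, hc⟩)) (P g)
        fun o c h1 h2 h3 => ⟨c, h1, h2, h3⟩) N
  have hU0 : U = ∅ := by
    rw [← card_eq_zero, ← Nat.lt_one_iff, ← Nat.cast_lt (α := ℝ), Nat.cast_one]
    refine hU.trans_lt ?_
    rw [Fintype.card_fun, Fintype.card_fin, Fintype.card_fin, Nat.cast_pow]
    have b1 : (1 - 1 / (8 * K)) ^ N ≤ Real.exp (-(4 * d * d)) := by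
      refine (pow_le_pow_left₀ (by linarith) (Real.one_sub_le_exp_neg _) N).trans ?_
      rw [← Real.exp_nat_mul]
      refine Real.exp_le_exp.2 ?_
      rw [mul_neg, neg_le_neg_iff, mul_one_div, le_div_iff₀ (by positivity)]
      nlinarith
    have b2 : ((40 * d ^ 3 : ℕ) : ℝ) ^ d < Real.exp (4 * d * d) := by
      have := pow_lt_pow_left₀ (net_lt hd) (by positivity) (n := d) (by omega)
      rwa [← Real.exp_nat_mul, mul_comm (d : ℝ)] at this
    calc _ ≤ Real.exp (-(4 * d * d)) * ((40 * d ^ 3 : ℕ) : ℝ) ^ d :=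
          mul_le_mul_of_nonneg_right b1 (by positivity)
      _ < Real.exp (-(4 * d * d)) * Real.exp (4 * d * d) :=
          mul_lt_mul_of_pos_left b2 (Real.exp_pos _)
      _ = 1 := by rw [← Real.exp_add]; simp
  have hN0 : 0 < N := Nat.ceil_pos.2 (by positivity)
  have : Nonempty (Fin N) := ⟨⟨0, hN0⟩⟩
  have key : ∀ x : EuclideanSpace ℝ (Fin d), (∀ i, x i ∈ Set.Ico (0 : ℝ) (2 * d)) →
      ∃ i : Fin N, ∃ c, f i c = true ∧ ‖x - pt δ c.1‖ < 1 / 2 ∧ ∀ b, b ≠ c → f i b = true →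
        27 / 16 < ‖pt δ b.1 - pt δ c.1 - (3 / 2 : ℝ) • (x - pt δ c.1)‖ ^ 2 := by
    intro x hx
    have h0 : ∀ i, 0 ≤ ix δ x i := fun i => Int.floor_nonneg.2 (div_nonneg (hx i).1 hδ.le)
    have h1 : ∀ i, (ix δ x i).toNat < 40 * d ^ 3 := fun i => by
      rw [Int.toNat_lt (h0 i)]
      refine Int.floor_lt.2 ?_
      rw [div_lt_iff₀ hδ]
      refine (hx i).2.trans_le (le_of_eq ?_)
      push_cast
      rw [hδd]; field_simp; ring
    have h2 : z (fun i => ⟨_, h1 i⟩) = pt δ (ix δ x) := by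
      simp only [hz]
      congr 1
      funext i
      exact Int.toNat_of_nonneg (h0 i)
    obtain ⟨i, hi⟩ := hf (fun i => ⟨_, h1 i⟩) (by simp [hU0])
    obtain ⟨c, c1, c2, c3⟩ := (mem_filter.1 hi).2
    rw [h2] at c2 c3
    have h3 := near hδ x
    refine ⟨i, c, c1, ?_, fun b hb hb1 => ?_⟩
    · have := norm_sub_le_norm_sub_add_norm_sub x (pt δ (ix δ x)) (pt δ c.1)
      rw [norm_sub_rev (pt δ (ix δ x))] at this
      linarith
    · have h4 := not_le.1 fun h => by simpa [hb1] using c3 b hb h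
      rw [show pt δ b.1 - (pt δ c.1 + (3 / 2 : ℝ) • (pt δ (ix δ x) - pt δ c.1)) =
        (pt δ b.1 - pt δ c.1 - (3 / 2 : ℝ) • (x - pt δ c.1)) +
          (3 / 2 : ℝ) • (x - pt δ (ix δ x)) by module] at h4
      have h5 := h4.trans_le (norm_add_le _ _)
      rw [norm_smul, Real.norm_eq_abs, abs_of_pos (by norm_num : (0 : ℝ) < 3 / 2)] at h5
      rw [← rho_sq]
      exact pow_lt_pow_left₀ (by linarith) (by positivity) (by norm_num)
  choose! col hcol using key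
  refine H12S.map_of_cube hd (k := N) ?_ col fun x y hx hy h1 he => ?_
  · rw [← Nat.cast_le (α := ℝ)]
    push_cast
    refine le_trans ?_ hn
    have : (d : ℝ) ^ 3 * K = d * (d ^ 2 * K) := by ring
    nlinarith [mul_le_mul (by linarith : (d : ℝ) + 1 ≤ 2 * d)
      (by linarith : (N : ℝ) ≤ 33 * (d ^ 2 * K)) (Nat.cast_nonneg N) (by positivity)]
  · obtain ⟨c, c1, c2, c3⟩ := hcol x hx
    obtain ⟨b, b1, b2, b3⟩ := hcol y hy
    rw [← he] at b1 b3
    by_cases h : b = c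
    · subst h
      have := norm_sub_le_norm_sub_add_norm_sub x (pt δ b.1) y
      rw [norm_sub_rev (pt δ b.1)] at this
      linarith
    · exact sep c2 b2 (c3 b h b1) (b3 c (Ne.symm h) c1) h1

end Pool.Agent.MP_66cee2_co.H24U
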